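import Mathlib

namespace Pool.Agent.Results.MP_dfec24_co.NotRich

/-- The operation S on infinite binary words: S(u)_n = u_n + u_(n+1) mod 2. -/
def opS (u : ℕ → ZMod 2) : ℕ → ZMod 2 := fun n => u n + u (n + 1)

/-- The generalized Thue-Morse word t_(b,2): base-b digit sum of n, mod 2. -/
def tm (b : ℕ) : ℕ → ZMod 2 := fun n => ((Nat.digits b n).sum : ZMod 2)

/-- A finite word w is rich if it has |w|+1 distinct palindromic factors (empty word included). -/
def RichFin (w : List (ZMod 2)) : Prop :=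
  Set.ncard {p : List (ZMod 2) | p <:+: w ∧ p.reverse = p} = w.length + 1

/-- An infinite word is rich if each finite factor u_i ... u_(i+L-1) is rich. -/
def Rich (u : ℕ → ZMod 2) : Prop :=
  ∀ i L : ℕ, RichFin ((List.range L).map fun j => u (i + j))

theorem pal_set (w : List (ZMod 2)) :
    {p : List (ZMod 2) | p <:+: w ∧ p.reverse = p} =
      ↑(((w.tails.flatMap List.inits).filter fun p => p.reverse = p).toFinset) := by
  ext p
  simp only [Set.mem_ofPred_eq, List.coe_toFinset, List.mem_filter, List.mem_flatMap,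
    List.mem_tails, List.mem_inits, decide_eq_true_eq, List.infix_iff_prefix_suffix]
  constructor
  · rintro ⟨⟨t, h1, h2⟩, h3⟩
    exact ⟨⟨t, h2, h1⟩, h3⟩
  · rintro ⟨⟨t, h2, h1⟩, h3⟩
    exact ⟨⟨t, h1, h2⟩, h3⟩

theorem word_eq : ((List.range 17).map fun j => (opS^[9] (tm 6)) (17 + j)) =
    [1, 0, 0, 0, 1, 0, 1, 0, 0, 0, 0, 0, 1, 0, 0, 0, 1] := by
  decide +kernel

/-- S^9(t_(6,2)) is not rich. -/
theorem result : ¬ Rich (opS^[9] (tm 6)) := by
  intro h
  have h1 := h 17 17
  rw [word_eq, RichFin, pal_set, Set.ncard_coe_finset] at h1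
  revert h1
  decide +kernel

end Pool.Agent.Results.MP_dfec24_co.NotRich
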